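import Pool.Agent.MP_b0afd3_gt.H80.Root

set_option autoImplicit false

/-!
The critical value of the potential vanishes at Euclidean angle data.
-/

namespace Pool.Agent.MP_b0afd3_gt.H56

open Real Filter Topology H80

theorem pa_zero {a b c d e f ξ : ℝ} (h : Reg a b c d e f) (hg : gd a b c d e f = 0)
    (h0 : sY a b c d e f ξ = sX a b c d e f ξ) : pa a b c d e f ξ = 0 := by
  have h1 := pa_eq h h0
  have h2 := cof_sq (cos a) (cos b) (cos c) (cos d) (cos e) (cos f)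
  rw [show gdet (cos a) (cos b) (cos c) (cos d) (cos e) (cos f) = 0 from hg] at h2
  have h3 := mul_pos h.t3.vtx_pos h.t4.vtx_pos
  have h4 : |be a b c d e f| = 1 := by
    rw [be, abs_div, abs_of_nonneg (sqrt_nonneg _), div_eq_one_iff_eq (sqrt_pos.2 h3).ne',
      ← sqrt_sq_eq_abs]
    congr 1
    linarith
  rw [h4, exp_neg] at h1
  have h5 := exp_pos (2 * pa a b c d e f ξ)
  have h6 : exp (2 * pa a b c d e f ξ) = 1 := by
    field_simp at h1
    nlinarith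
  have := exp_eq_one_iff _ |>.1 h6
  linarith

theorem pa_all {a b c d e f ξ : ℝ} (h : Reg a b c d e f) (hg : gd a b c d e f = 0)
    (h0 : sY a b c d e f ξ = sX a b c d e f ξ) :
    pa b f d c a e ξ = 0 ∧ pa c f e b a d ξ = 0 ∧ pa d f b e a c ξ = 0 ∧ pa e f c d a b ξ = 0 ∧
      pa f b d c e a ξ = 0 := by
  obtain ⟨⟨_, _, _, _⟩, ⟨_, _, _, _⟩, ⟨_, _, _, _⟩, ⟨_, _, _, _⟩⟩ := h
  simp only [gd, gdet] at hg
  simp only [sX, sY] at h0
  refine ⟨pa_zero ?_ ?_ ?_, pa_zero ?_ ?_ ?_, pa_zero ?_ ?_ ?_, pa_zero ?_ ?_ ?_,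
    pa_zero ?_ ?_ ?_⟩
  all_goals first
    | (refine ⟨⟨?_, ?_, ?_, ?_⟩, ⟨?_, ?_, ?_, ?_⟩, ⟨?_, ?_, ?_, ?_⟩, ⟨?_, ?_, ?_, ?_⟩⟩ <;> linarith)
    | (simp only [gd, gdet]; linear_combination hg)
    | (simp only [sX, sY]; ring_nf at h0 ⊢; linear_combination h0)

theorem U_int (k1 k2 k3 k4 na nb nc nd ne nf : ℤ) (h1 : nf + nb + nc = 2 * k1)
    (h2 : nf + nd + ne = 2 * k2) (h3 : na + nb + nd = 2 * k3) (h4 : na + nc + ne = 2 * k4)
    (ξ : ℝ) : U (na * π) (nb * π) (nc * π) (nd * π) (ne * π) (nf * π) ξ = 0 := by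
  have D : ∀ k x y z : ℤ, x + y + z = 2 * k → dl (x * π) (y * π) (z * π) = 0 := by
    intro k x y z h
    have h' : (x : ℝ) + y + z = 2 * k := by exact_mod_cast h
    rw [dl, show (x * π + y * π - z * π) / 2 = 0 + (k - z : ℤ) * π by
        push_cast; linear_combination π / 2 * h',
      show (x * π + z * π - y * π) / 2 = 0 + (k - y : ℤ) * π by
        push_cast; linear_combination π / 2 * h',
      show (y * π + z * π - x * π) / 2 = 0 + (k - x : ℤ) * π by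
        push_cast; linear_combination π / 2 * h',
      show (x * π + y * π + z * π) / 2 = 0 + (k : ℤ) * π by linear_combination π / 2 * h']
    simp only [lob_int, lob_zero]
    ring
  have g1 : (nf : ℝ) + nb + nc = 2 * k1 := by exact_mod_cast h1
  have g2 : (nf : ℝ) + nd + ne = 2 * k2 := by exact_mod_cast h2
  have g3 : (na : ℝ) + nb + nd = 2 * k3 := by exact_mod_cast h3
  have g4 : (na : ℝ) + nc + ne = 2 * k4 := by exact_mod_cast h4
  rw [U, D _ _ _ _ h1, D _ _ _ _ h2, D _ _ _ _ h3, D _ _ _ _ h4,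
    show ξ - (nf * π + nb * π + nc * π) / 2 = ξ + (-k1 : ℤ) * π by
      push_cast; linear_combination -π / 2 * g1,
    show ξ - (nf * π + nd * π + ne * π) / 2 = ξ + (-k2 : ℤ) * π by
      push_cast; linear_combination -π / 2 * g2,
    show ξ - (na * π + nb * π + nd * π) / 2 = ξ + (-k3 : ℤ) * π by
      push_cast; linear_combination -π / 2 * g3,
    show ξ - (na * π + nc * π + ne * π) / 2 = ξ + (-k4 : ℤ) * π by
      push_cast; linear_combination -π / 2 * g4,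
    show (na * π + nf * π + nb * π + ne * π) / 2 - ξ = -ξ + (k1 + k4 - nc : ℤ) * π by
      push_cast; linear_combination π / 2 * g1 + π / 2 * g4,
    show (na * π + nf * π + nc * π + nd * π) / 2 - ξ = -ξ + (k1 + k3 - nb : ℤ) * π by
      push_cast; linear_combination π / 2 * g1 + π / 2 * g3,
    show (nb * π + nc * π + nd * π + ne * π) / 2 - ξ = -ξ + (k1 + k2 - nf : ℤ) * π by
      push_cast; linear_combination π / 2 * g1 + π / 2 * g2]
  simp only [lob_int, lob_neg]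
  ring

/-- The length of the stretched vector. -/
noncomputable def sc (u t : ℝ) : ℝ := √(1 - t + t * u ^ 2)

/-- The normalised entry of `(1 - t) G + t v vᵀ`. -/
noncomputable def gg (x u w t : ℝ) : ℝ := ((1 - t) * x + t * (u * w)) / (sc u t * sc w t)

/-- The angle along the path. -/
noncomputable def ang (x u w t : ℝ) : ℝ := arccos (gg (cos x) u w t)

theorem rad_pos {u t : ℝ} (hu : u ≠ 0) (h0 : 0 ≤ t) (h1 : t ≤ 1) : 0 < 1 - t + t * u ^ 2 := by
  have := sq_pos_of_ne_zero hu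
  rcases h0.eq_or_lt with rfl | h
  · simp
  · have := mul_pos h this
    linarith

theorem sc_pos {u t : ℝ} (hu : u ≠ 0) (h0 : 0 ≤ t) (h1 : t ≤ 1) : 0 < sc u t :=
  sqrt_pos.2 (rad_pos hu h0 h1)

theorem sc_sq {u t : ℝ} (hu : u ≠ 0) (h0 : 0 ≤ t) (h1 : t ≤ 1) : sc u t ^ 2 = 1 - t + t * u ^ 2 :=
  sq_sqrt (rad_pos hu h0 h1).le

theorem gg_mem {x u w t : ℝ} (hx : x ^ 2 < 1) (hu : u ≠ 0) (hw : w ≠ 0) (h0 : 0 ≤ t)
    (h1 : t < 1) : -1 < gg x u w t ∧ gg x u w t < 1 := by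
  have p := mul_pos (sc_pos hu h0 h1.le) (sc_pos hw h0 h1.le)
  rw [← abs_lt, gg, abs_div, abs_of_pos p, div_lt_one p]
  refine abs_lt_of_sq_lt_sq ?_ p.le
  rw [mul_pow, sc_sq hu h0 h1.le, sc_sq hw h0 h1.le]
  have q1 : 0 < (1 - t) ^ 2 * (1 - x ^ 2) := mul_pos (pow_pos (by linarith) 2) (by linarith)
  have q2 : 0 ≤ (1 - t) * t * ((u - x * w) ^ 2 + (1 - x ^ 2) * w ^ 2) :=
    mul_nonneg (mul_nonneg (by linarith) h0)
      (add_nonneg (sq_nonneg _) (mul_nonneg (by linarith) (sq_nonneg _)))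
  nlinarith

theorem gg_diff {x u w t : ℝ} (hu : u ≠ 0) (hw : w ≠ 0) (h0 : 0 ≤ t) (h1 : t ≤ 1) :
    DifferentiableAt ℝ (gg x u w) t := by
  have k : ∀ v : ℝ, v ≠ 0 → DifferentiableAt ℝ (sc v) t := fun v hv =>
    DifferentiableAt.sqrt (by fun_prop) (rad_pos hv h0 h1).ne'
  exact DifferentiableAt.div (by fun_prop) ((k u hu).mul (k w hw))
    (mul_pos (sc_pos hu h0 h1) (sc_pos hw h0 h1)).ne'

theorem cos_sq_lt {x : ℝ} (h : 0 < sin x) : cos x ^ 2 < 1 := by
  nlinarith [sin_sq_add_cos_sq x]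

theorem ang_deriv {x u w t : ℝ} (hx : 0 < sin x) (hu : u ≠ 0) (hw : w ≠ 0) (h0 : 0 ≤ t)
    (h1 : t < 1) : HasDerivAt (ang x u w) (deriv (ang x u w) t) t := by
  have h := gg_mem (cos_sq_lt hx) hu hw h0 h1
  exact ((hasDerivAt_arccos h.1.ne' h.2.ne).differentiableAt.comp t
    (gg_diff hu hw h0 h1.le)).hasDerivAt

theorem ang_cont {x u w : ℝ} (hu : u ≠ 0) (hw : w ≠ 0) : ContinuousAt (ang x u w) 1 :=
  continuous_arccos.continuousAt.comp (gg_diff hu hw zero_le_one le_rfl).continuousAt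

theorem cos_ang {x u w t : ℝ} (hx : 0 < sin x) (hu : u ≠ 0) (hw : w ≠ 0) (h0 : 0 ≤ t)
    (h1 : t < 1) : cos (ang x u w t) = gg (cos x) u w t := by
  have h := gg_mem (cos_sq_lt hx) hu hw h0 h1
  exact cos_arccos h.1.le h.2.le

theorem ang_mem {x u w t : ℝ} (hx : 0 < sin x) (hu : u ≠ 0) (hw : w ≠ 0) (h0 : 0 ≤ t)
    (h1 : t < 1) : ang x u w t ∈ Set.Ioo 0 π := by
  have h := gg_mem (cos_sq_lt hx) hu hw h0 h1
  exact ⟨arccos_pos.2 h.2, arccos_lt_pi.2 h.1⟩

theorem ang_zero {x y z : ℝ} (h : Tri x y z) (u w : ℝ) : ang x u w 0 = x := by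
  simp only [ang, gg, sc, sub_zero, zero_mul, add_zero, one_mul, sqrt_one, div_one]
  exact arccos_cos (by linarith [h.2.1, h.2.2.1]) (by linarith [h.1, h.2.2.2])

/-- The sign of `u` as `0` or `1`. -/
noncomputable def sg (u : ℝ) : ℤ := if 0 < u then 0 else 1

theorem ang_one {x u w : ℝ} (hu : u ≠ 0) (hw : w ≠ 0) :
    ang x u w 1 = ((sg u - sg w) ^ 2 : ℤ) * π := by
  simp only [ang, gg, sc, sub_self, zero_mul, zero_add, one_mul, sqrt_sq_eq_abs, sg]
  rcases hu.lt_or_gt with p | p <;> rcases hw.lt_or_gt with q | q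
  · rw [abs_of_neg p, abs_of_neg q, neg_mul_neg, div_self (mul_ne_zero hu hw)]
    simp [p.not_gt, q.not_gt]
  · rw [abs_of_neg p, abs_of_pos q, neg_mul, div_neg, div_self (mul_ne_zero hu hw)]
    simp [p.not_gt, q]
  · rw [abs_of_pos p, abs_of_neg q, mul_neg, div_neg, div_self (mul_ne_zero hu hw)]
    simp [p, q.not_gt]
  · rw [abs_of_pos p, abs_of_pos q, div_self (mul_ne_zero hu hw)]
    simp [p, q]

theorem tri_path {x y z p q r t : ℝ} (h : Tri x y z) (hp : p ≠ 0) (hq : q ≠ 0) (hr : r ≠ 0)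
    (h0 : 0 ≤ t) (h1 : t < 1) : Tri (ang x p q t) (ang y q r t) (ang z p r t) := by
  have sx := h.sx
  have sy := h.rot.sx
  have sz := h.rot.rot.sx
  refine tri_of_vtx (ang_mem sx hp hq h0 h1) (ang_mem sy hq hr h0 h1) (ang_mem sz hp hr h0 h1) ?_
  rw [cos_ang sx hp hq h0 h1, cos_ang sy hq hr h0 h1, cos_ang sz hp hr h0 h1]
  have hv := h.vtx_pos
  have hy := cos_sq_lt sy
  generalize cos x = X at *
  generalize cos y = Y at *
  generalize cos z = Z at *
  have k1 := sc_pos hp h0 h1.le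
  have k2 := sc_pos hq h0 h1.le
  have k3 := sc_pos hr h0 h1.le
  set Q := (1 - Y ^ 2) * p ^ 2 + (1 - Z ^ 2) * q ^ 2 + (1 - X ^ 2) * r ^ 2 +
    2 * ((Y * Z - X) * p * q + (X * Y - Z) * p * r + (X * Z - Y) * q * r) with hQ
  have hQ0 : 0 ≤ Q := by
    have e : (1 - Y ^ 2) * Q = ((1 - Y ^ 2) * p + (Y * Z - X) * q + (X * Y - Z) * r) ^ 2 +
        vtx X Y Z * ((q - Y * r) ^ 2 + (1 - Y ^ 2) * r ^ 2) := by
      rw [hQ, vtx]; ring
    have : 0 ≤ (1 - Y ^ 2) * Q := by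
      rw [e]
      have : 0 ≤ (1 - Y ^ 2) * r ^ 2 := mul_nonneg (by linarith) (sq_nonneg _)
      positivity
    exact nonneg_of_mul_nonneg_right this (by linarith)
  have e : vtx (gg X p q t) (gg Y q r t) (gg Z p r t) * (sc p t * sc q t * sc r t) ^ 2 =
      (1 - t) ^ 3 * vtx X Y Z + (1 - t) ^ 2 * t * Q := by
    have e1 : vtx (gg X p q t) (gg Y q r t) (gg Z p r t) * (sc p t * sc q t * sc r t) ^ 2 =
        sc p t ^ 2 * sc q t ^ 2 * sc r t ^ 2 - ((1 - t) * X + t * (p * q)) ^ 2 * sc r t ^ 2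
          - ((1 - t) * Y + t * (q * r)) ^ 2 * sc p t ^ 2
          - ((1 - t) * Z + t * (p * r)) ^ 2 * sc q t ^ 2
          + 2 * ((1 - t) * X + t * (p * q)) * ((1 - t) * Y + t * (q * r)) *
            ((1 - t) * Z + t * (p * r)) := by
      simp only [vtx, gg]
      field_simp
    rw [e1, sc_sq hp h0 h1.le, sc_sq hq h0 h1.le, sc_sq hr h0 h1.le, hQ, vtx]
    ring
  have h2 : 0 < 1 - t := by linarith
  refine (mul_pos_iff_of_pos_right (b := (sc p t * sc q t * sc r t) ^ 2) (by positivity)).1 ?_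
  rw [e]
  positivity

theorem gdet_path {A B C D E F p q r u t : ℝ} (hg : gdet A B C D E F = 0) (hv : vtx A B D ≠ 0)
    (hk : cof B F D C A E * p + cof D F B E A C * q + vtx A B D * r + cof A B C D E F * u = 0)
    (hp : p ≠ 0) (hq : q ≠ 0) (hr : r ≠ 0) (hu : u ≠ 0) (h0 : 0 ≤ t) (h1 : t ≤ 1) :
    gdet (gg A p q t) (gg B q u t) (gg C q r t) (gg D p u t) (gg E p r t) (gg F r u t) = 0 := by
  have k1 := sc_pos hp h0 h1
  have k2 := sc_pos hq h0 h1
  have k3 := sc_pos hr h0 h1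
  have k4 := sc_pos hu h0 h1
  have hq0 : adjq A B C D E F ![p, q, r, u] = 0 := by
    refine mul_left_cancel₀ hv ?_
    have e : vtx A B D * adjq A B C D E F ![p, q, r, u] =
        (cof B F D C A E * p + cof D F B E A C * q + vtx A B D * r + cof A B C D E F * u) ^ 2 +
        gdet A B C D E F * ((1 - B ^ 2) * p ^ 2 + (1 - D ^ 2) * q ^ 2 + (1 - A ^ 2) * u ^ 2 +
          2 * ((D * B - A) * p * q + (A * B - D) * p * u + (A * D - B) * q * u)) := by
      simp only [adjq, vtx, cof, gdet, Matrix.cons_val_zero, Matrix.cons_val_one,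
        Matrix.cons_val]
      ring
    rw [e, hk, hg]
    ring
  have e1 : ∀ x1 x2 x3 x4 x5 x6 s0 s1 s2 s3 : ℝ, s0 ≠ 0 → s1 ≠ 0 → s2 ≠ 0 → s3 ≠ 0 →
      gdet (x1 / (s0 * s1)) (x2 / (s1 * s3)) (x3 / (s1 * s2)) (x4 / (s0 * s3)) (x5 / (s0 * s2))
        (x6 / (s2 * s3)) * (s0 * s1 * s2 * s3) ^ 2 =
      s0 ^ 2 * s1 ^ 2 * s2 ^ 2 * s3 ^ 2 - (x1 ^ 2 * s2 ^ 2 * s3 ^ 2 + x2 ^ 2 * s0 ^ 2 * s2 ^ 2 +
        x3 ^ 2 * s0 ^ 2 * s3 ^ 2 + x4 ^ 2 * s1 ^ 2 * s2 ^ 2 + x5 ^ 2 * s1 ^ 2 * s3 ^ 2 +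
        x6 ^ 2 * s0 ^ 2 * s1 ^ 2) + (x1 ^ 2 * x6 ^ 2 + x2 ^ 2 * x5 ^ 2 + x3 ^ 2 * x4 ^ 2) +
        2 * (x1 * x2 * x4 * s2 ^ 2 + x1 * x3 * x5 * s3 ^ 2 + x2 * x3 * x6 * s0 ^ 2 +
          x4 * x5 * x6 * s1 ^ 2) - 2 * (x1 * x2 * x5 * x6 + x1 * x3 * x4 * x6 + x2 * x3 * x4 * x5) := by
    intro x1 x2 x3 x4 x5 x6 s0 s1 s2 s3 _ _ _ _
    simp only [gdet]
    field_simp
  refine mul_right_cancel₀ (b := (sc p t * sc q t * sc r t * sc u t) ^ 2) (by positivity) ?_
  simp only [gg]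
  rw [e1 _ _ _ _ _ _ _ _ _ _ k1.ne' k2.ne' k3.ne' k4.ne', sc_sq hp h0 h1, sc_sq hq h0 h1,
    sc_sq hr h0 h1, sc_sq hu h0 h1]
  simp only [adjq, vtx, cof, gdet, Matrix.cons_val_zero, Matrix.cons_val_one,
    Matrix.cons_val] at hq0 hg
  linear_combination (1 - t) ^ 4 * hg + (1 - t) ^ 3 * t * hq0

theorem euclid {a b c d e f : ℝ} (h : Reg a b c d e f) (hg : gd a b c d e f = 0) (s : ℝ) :
    U a b c d e f (rt s a b c d e f) = 0 := by
  have hs : rt s a b c d e f = rt 1 a b c d e f := by simp only [rt, h.om_zero hg, mul_zero]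
  rw [hs]
  have hG : gdet (cos a) (cos b) (cos c) (cos d) (cos e) (cos f) = 0 := hg
  have v1 := h.t1.vtx_pos
  have v2 := h.t2.vtx_pos
  have v3 := h.t3.vtx_pos
  have v4 := h.t4.vtx_pos
  obtain ⟨p, q, r, u, hp, hq, hr, hu, hk⟩ : ∃ p q r u : ℝ, p ≠ 0 ∧ q ≠ 0 ∧ r ≠ 0 ∧ u ≠ 0 ∧
      cof (cos b) (cos f) (cos d) (cos c) (cos a) (cos e) * p +
        cof (cos d) (cos f) (cos b) (cos e) (cos a) (cos c) * q +
        vtx (cos a) (cos b) (cos d) * r +
        cof (cos a) (cos b) (cos c) (cos d) (cos e) (cos f) * u = 0 := by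
    refine ⟨cof (cos d) (cos f) (cos b) (cos e) (cos a) (cos c),
      -cof (cos b) (cos f) (cos d) (cos c) (cos a) (cos e),
      cof (cos a) (cos b) (cos c) (cos d) (cos e) (cos f), -vtx (cos a) (cos b) (cos d),
      fun g => ?_, fun g => ?_, fun g => ?_, neg_ne_zero.2 v3.ne', by ring⟩
    · have k := cof_sq (cos d) (cos f) (cos b) (cos e) (cos a) (cos c)
      refine (mul_pos v2 v3).ne' ?_
      rw [g] at k
      simp only [vtx, gdet] at k hG ⊢
      linear_combination -k + (1 - cos d ^ 2) * hG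
    · have k := cof_sq (cos b) (cos f) (cos d) (cos c) (cos a) (cos e)
      refine (mul_pos v1 v3).ne' ?_
      rw [neg_eq_zero.1 g] at k
      simp only [vtx, gdet] at k hG ⊢
      linear_combination -k + (1 - cos b ^ 2) * hG
    · have k := cof_sq (cos a) (cos b) (cos c) (cos d) (cos e) (cos f)
      refine (mul_pos v3 v4).ne' ?_
      rw [g, hG] at k
      linarith
  have sa := h.t3.sx
  have sb := h.t3.rot.sx
  have sd := h.t3.rot.rot.sx
  have sc' := h.t4.rot.sx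
  have se := h.t4.rot.rot.sx
  have sf := h.t1.sx
  have reg : ∀ t, 0 ≤ t → t < 1 → Reg (ang a p q t) (ang b q u t) (ang c q r t) (ang d p u t)
      (ang e p r t) (ang f r u t) := fun t h0 h1 =>
    ⟨(tri_path h.t1.rot.rot hq hr hu h0 h1).rot, (tri_path h.t2.rot.rot hp hr hu h0 h1).rot,
      tri_path h.t3 hp hq hu h0 h1, tri_path h.t4 hp hq hr h0 h1⟩
  have gz : ∀ t, 0 ≤ t → t < 1 → gd (ang a p q t) (ang b q u t) (ang c q r t) (ang d p u t)
      (ang e p r t) (ang f r u t) = 0 := fun t h0 h1 => by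
    rw [gd, cos_ang sa hp hq h0 h1, cos_ang sb hq hu h0 h1, cos_ang sc' hq hr h0 h1,
      cos_ang sd hp hu h0 h1, cos_ang se hp hr h0 h1, cos_ang sf hr hu h0 h1]
    exact gdet_path hG v3.ne' hk hp hq hr hu h0 h1.le
  set W : ℝ → ℝ := fun t => U (ang a p q t) (ang b q u t) (ang c q r t) (ang d p u t)
    (ang e p r t) (ang f r u t) (rt 1 (ang a p q t) (ang b q u t) (ang c q r t) (ang d p u t)
      (ang e p r t) (ang f r u t)) with hW
  have cont : ∀ t, 0 ≤ t → t < 1 → ContinuousAt W t := fun t h0 h1 =>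
    V_cont (ang_deriv sa hp hq h0 h1) (ang_deriv sb hq hu h0 h1) (ang_deriv sc' hq hr h0 h1)
      (ang_deriv sd hp hu h0 h1) (ang_deriv se hp hr h0 h1) (ang_deriv sf hr hu h0 h1)
      (reg t h0 h1) (gz t h0 h1).le 1
  have der : ∀ t, 0 < t → t < 1 → HasDerivAt W 0 t := fun t h0 h1 => by
    have ho : DifferentiableAt ℝ (fun t => om (ang a p q t) (ang b q u t) (ang c q r t)
        (ang d p u t) (ang e p r t) (ang f r u t)) t := by
      refine (differentiableAt_const (0 : ℝ)).congr_of_eventuallyEq ?_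
      filter_upwards [Ioo_mem_nhds h0 h1] with x hx
      exact (reg x hx.1.le hx.2).om_zero (gz x hx.1.le hx.2)
    have k := V_deriv (ang_deriv sa hp hq h0.le h1) (ang_deriv sb hq hu h0.le h1)
      (ang_deriv sc' hq hr h0.le h1) (ang_deriv sd hp hu h0.le h1) (ang_deriv se hp hr h0.le h1)
      (ang_deriv sf hr hu h0.le h1) (reg t h0.le h1) (gz t h0.le h1).le (Or.inl rfl) ho rfl
    have root := (reg t h0.le h1).rt_root (gz t h0.le h1).le (s := 1) (Or.inl rfl)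
    obtain ⟨z1, z2, z3, z4, z5⟩ := pa_all (reg t h0.le h1) (gz t h0.le h1) root
    rw [pa_zero (reg t h0.le h1) (gz t h0.le h1) root, z1, z2, z3, z4, z5] at k
    simpa using k
  have const : ∀ t, 0 < t → t < 1 → W t = W 0 := fun t h0 h1 => by
    obtain ⟨x, -, hx⟩ := exists_hasDerivAt_eq_slope W (fun _ => 0) h0
      (fun x hx => (cont x hx.1 (hx.2.trans_lt h1)).continuousWithinAt)
      fun x hx => der x hx.1 (hx.2.trans h1)
    rw [eq_comm, div_eq_zero_iff] at hx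
    rcases hx with hx | hx <;> linarith
  have w0 : W 0 = U a b c d e f (rt 1 a b c d e f) := by
    simp only [hW, ang_zero h.t3, ang_zero h.t3.rot, ang_zero h.t3.rot.rot, ang_zero h.t4.rot,
      ang_zero h.t4.rot.rot, ang_zero h.t1]
  rw [← w0]
  by_contra hne
  have hε := abs_pos.2 hne
  have lim : ∀ᶠ t in 𝓝 (1 : ℝ), ∀ ξ ∈ Set.Icc (-π) (2 * π), |U (ang a p q t) (ang b q u t)
      (ang c q r t) (ang d p u t) (ang e p r t) (ang f r u t) ξ| < |W 0| := by
    refine isCompact_Icc.eventually_forall_of_forall_eventually fun ξ _ => ?_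
    have k : ∀ {x v w : ℝ}, v ≠ 0 → w ≠ 0 →
        ContinuousAt (fun z : ℝ × ℝ => ang x v w z.1) (1, ξ) := fun hv hw =>
      ContinuousAt.comp (g := ang _ _ _) (ang_cont hv hw) continuousAt_fst
    have k1 := k (x := a) hp hq
    have k2 := k (x := b) hq hu
    have k3 := k (x := c) hq hr
    have k4 := k (x := d) hp hu
    have k5 := k (x := e) hp hr
    have k6 := k (x := f) hr hu
    have k8 := lob_cont
    have hc : ContinuousAt (fun z : ℝ × ℝ => |U (ang a p q z.1) (ang b q u z.1) (ang c q r z.1)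
        (ang d p u z.1) (ang e p r z.1) (ang f r u z.1) z.2|) (1, ξ) := by
      unfold U dl
      fun_prop
    refine hc.eventually_lt continuousAt_const ?_
    simp only [ang_one, hp, hq, hr, hu, ne_eq, not_false_eq_true]
    rw [U_int (sg q ^ 2 + sg r ^ 2 + sg u ^ 2 - sg q * sg r - sg q * sg u - sg r * sg u)
      (sg p ^ 2 + sg r ^ 2 + sg u ^ 2 - sg p * sg r - sg p * sg u - sg r * sg u)
      (sg p ^ 2 + sg q ^ 2 + sg u ^ 2 - sg p * sg q - sg p * sg u - sg q * sg u)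
      (sg p ^ 2 + sg q ^ 2 + sg r ^ 2 - sg p * sg q - sg p * sg r - sg q * sg r)
      _ _ _ _ _ _ (by ring) (by ring) (by ring) (by ring), abs_zero]
    exact hε
  obtain ⟨t, ht, h0, h1⟩ := ((lim.filter_mono nhdsWithin_le_nhds).and
    (Ioo_mem_nhdsLT (zero_lt_one' ℝ))).exists
  have m1 := ang_mem sb hq hu h0.le h1
  have m2 := ang_mem sc' hq hr h0.le h1
  have m3 := ang_mem sd hp hu h0.le h1
  have m4 := ang_mem se hp hr h0.le h1
  have := ht (rt 1 (ang a p q t) (ang b q u t) (ang c q r t) (ang d p u t) (ang e p r t)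
    (ang f r u t)) (by
      rw [rt, (reg t h0.le h1).om_zero (gz t h0.le h1)]
      have g1 := Complex.neg_pi_lt_arg (E1 (ang a p q t) (ang b q u t) (ang c q r t) (ang d p u t)
        (ang e p r t) (ang f r u t))
      have g2 := Complex.arg_le_pi (E1 (ang a p q t) (ang b q u t) (ang c q r t) (ang d p u t)
        (ang e p r t) (ang f r u t))
      constructor <;> linarith [m1.1, m1.2, m2.1, m2.2, m3.1, m3.2, m4.1, m4.2, pi_pos])
  rw [← const t h0 h1] at this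
  exact lt_irrefl _ this

end Pool.Agent.MP_b0afd3_gt.H56
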